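import Pool.Agent.N783.CF.Stm

set_option autoImplicit false

/-! Project CF (helper783), part CNT: from the height to the discriminant. -/

namespace Pool.Agent.N654.CF

open Pool.Agent.N783.CF

theorem real_part (m e : ℕ) (he : 1 ≤ e) (c C : ℝ) (hc : 0 < c) (hC : 1 ≤ C) (B₀ : ℕ)
    (φ : ℝ → ℝ) (hmono : ∀ X Y, 1 ≤ Y → X ≤ Y → φ X ≤ φ Y)
    (h : ∀ B : ℕ, B₀ ≤ B → c * (B : ℝ) ^ m ≤ φ (C * (B : ℝ) ^ e)) :
    ∃ c' : ℝ, 0 < c' ∧ ∃ X₀ : ℝ, 1 ≤ X₀ ∧ ∀ X : ℝ, X₀ ≤ X →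
      c' * X ^ ((m : ℝ) / (e : ℝ)) ≤ φ X := by
  have hC0 : 0 < C := by linarith
  have he0 : (0 : ℝ) < e := by exact_mod_cast he
  have heN : e ≠ 0 := by omega
  refine ⟨c / (2 ^ m * C ^ ((m : ℝ) / (e : ℝ))), by positivity, C * ((B₀ : ℝ) + 2) ^ e, ?_, ?_⟩
  · have h1 : (1 : ℝ) ≤ ((B₀ : ℝ) + 2) ^ e := one_le_pow₀ (by
      have : (0 : ℝ) ≤ B₀ := Nat.cast_nonneg _
      linarith)
    nlinarith
  intro X hX
  have hB0 : (0 : ℝ) ≤ B₀ := Nat.cast_nonneg _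
  have hpow1 : (1 : ℝ) ≤ ((B₀ : ℝ) + 2) ^ e := one_le_pow₀ (by linarith)
  have hX1 : 1 ≤ X := by nlinarith
  have hXC : ((B₀ : ℝ) + 2) ^ e ≤ X / C := by
    rw [le_div_iff₀ hC0, mul_comm]
    exact hX
  have hXC0 : 0 ≤ X / C := by positivity
  obtain ⟨y, hy⟩ : ∃ y : ℝ, y = (X / C) ^ (1 / (e : ℝ)) := ⟨_, rfl⟩
  have hye : y ^ e = X / C := by
    rw [hy, ← Real.rpow_natCast, ← Real.rpow_mul hXC0, one_div, inv_mul_cancel₀ he0.ne',
      Real.rpow_one]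
  have hy0 : 0 ≤ y := by rw [hy]; positivity
  have hyB : (B₀ : ℝ) + 2 ≤ y := by
    by_contra hcon
    push Not at hcon
    have := pow_lt_pow_left₀ hcon hy0 heN
    rw [hye] at this
    linarith
  obtain ⟨B, hB⟩ : ∃ B : ℕ, B = ⌊y⌋₊ := ⟨_, rfl⟩
  have hBy : (B : ℝ) ≤ y := by rw [hB]; exact Nat.floor_le hy0
  have hBy' : y < (B : ℝ) + 1 := by rw [hB]; exact Nat.lt_floor_add_one y
  have hB1 : B₀ ≤ B := by
    have : (B₀ : ℝ) < B := by linarith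
    exact_mod_cast this.le
  have hhalf : y / 2 ≤ B := by linarith
  have h1 : C * (B : ℝ) ^ e ≤ X := by
    have : (B : ℝ) ^ e ≤ X / C := by
      rw [← hye]
      exact pow_le_pow_left₀ (Nat.cast_nonneg _) hBy e
    calc C * (B : ℝ) ^ e ≤ C * (X / C) := mul_le_mul_of_nonneg_left this hC0.le
      _ = X := by field_simp
  have h2 := (h B hB1).trans (hmono _ _ hX1 h1)
  refine le_trans ?_ h2
  have h3 : (y / 2) ^ m ≤ (B : ℝ) ^ m := pow_le_pow_left₀ (by positivity) hhalf m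
  have h4 : y ^ m = X ^ ((m : ℝ) / (e : ℝ)) / C ^ ((m : ℝ) / (e : ℝ)) := by
    rw [hy, ← Real.rpow_natCast, ← Real.rpow_mul hXC0, ← Real.div_rpow (by linarith) hC0.le]
    congr 1
    field_simp
  have h5 : c / (2 ^ m * C ^ ((m : ℝ) / (e : ℝ))) * X ^ ((m : ℝ) / (e : ℝ)) = c * (y / 2) ^ m := by
    rw [div_pow, h4]
    have : (0 : ℝ) < C ^ ((m : ℝ) / (e : ℝ)) := by positivity
    field_simp
  rw [h5]
  exact mul_le_mul_of_nonneg_left h3 hc.le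

theorem t_CNT : S_CN1 → S_FINF → S_CNT := by
  intro h1 h2 g F _ _ hg
  obtain ⟨c, hc, C, hC, B₀, hB⟩ := h1 g F hg
  have hd : 1 ≤ Module.finrank ℚ F := Module.finrank_pos
  have hfin : ∀ Y : ℝ, 1 ≤ Y → (Flds F g Y).Finite := by
    intro Y hY
    refine (h2 F (2 * g + 1) Y (by omega) hY).subset ?_
    intro L hL
    exact hL.1
  have hmono : ∀ X Y : ℝ, 1 ≤ Y → X ≤ Y →
      ((Flds F g X).ncard : ℝ) ≤ ((Flds F g Y).ncard : ℝ) := by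
    intro X Y hY hXY
    have : (Flds F g X).ncard ≤ (Flds F g Y).ncard := by
      refine Set.ncard_le_ncard ?_ (hfin Y hY)
      rintro L ⟨⟨k1, hn, k2⟩, k3⟩
      exact ⟨⟨k1, hn, k2.trans hXY⟩, k3⟩
    exact_mod_cast this
  have he : 1 ≤ Module.finrank ℚ F * (2 * g * (2 * g + 1)) :=
    Nat.mul_pos hd (by positivity)
  obtain ⟨c', hc', X₀, hX₀, hX⟩ := real_part (Module.finrank ℚ F * Pool.Agent.N352.PJ.dd g)
    (Module.finrank ℚ F * (2 * g * (2 * g + 1))) he c C hc hC B₀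
    (fun X => ((Flds F g X).ncard : ℝ)) hmono hB
  refine ⟨c', hc', X₀, ?_⟩
  intro X hXX
  refine ⟨h2 F (2 * g + 1) X (by omega) (hX₀.trans hXX), ?_⟩
  have hexp : ((Module.finrank ℚ F * Pool.Agent.N352.PJ.dd g : ℕ) : ℝ) /
      ((Module.finrank ℚ F * (2 * g * (2 * g + 1)) : ℕ) : ℝ) =
      (1 : ℝ) / 2 + 1 / ((2 * g + 1 : ℕ) : ℝ) := by
    have hd0 : (0 : ℝ) < Module.finrank ℚ F := by exact_mod_cast hd
    have hg0 : (0 : ℝ) < g := by exact_mod_cast hg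
    unfold Pool.Agent.N352.PJ.dd
    push_cast
    field_simp
    ring
  have h3 := hX X hXX
  rw [hexp] at h3
  exact h3

end Pool.Agent.N654.CF
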